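import Mathlib

/-!
# MP_b7f7f4_co: latin squares without odd-weights

A latin square with no odd-weight has the odd-block pattern of `Z_{2m}` for some `m ≥ 1`.
-/

set_option autoImplicit false

namespace Pool.Agent.Results.MP_b7f7f4_co.OddBlockPattern

/-- `L` is a latin square of order `n`: every symbol occurs once in every row and column. -/
def IsLatin {n : ℕ} (L : Fin n → Fin n → Fin n) : Prop :=
  (∀ x, Function.Bijective (L x)) ∧ ∀ y, Function.Bijective (fun x => L x y)

/-- `θ` is a `k`-weight of `L`: its sum over every row, every column and every symbol is `k`. -/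
def IsWeight {n : ℕ} (L : Fin n → Fin n → Fin n) (k : ℤ) (θ : Fin n → Fin n → ℤ) : Prop :=
  (∀ x, ∑ y, θ x y = k) ∧ (∀ y, ∑ x, θ x y = k) ∧
    ∀ s, ∑ x, ∑ y, (if L x y = s then θ x y else 0) = k

/-- `L` has an odd-weight. -/
def HasOddWeight {n : ℕ} (L : Fin n → Fin n → Fin n) : Prop :=
  ∃ (k : ℤ) (θ : Fin n → Fin n → ℤ), Odd k ∧ IsWeight L k θ

/-- After arranging the rows (by `ρ`) and the columns (by `κ`), `L` is a block matrix with
`q × q` blocks indexed by `I × I`, the block `(i, j)` is a latin square on the set `T i j` of `q`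
symbols, and two blocks use the same symbols exactly if `L'` has equal entries there. -/
def HasBlockPattern {n : ℕ} (L : Fin n → Fin n → Fin n) {I : Type} (L' : I → I → I) (q : ℕ) :
    Prop :=
  ∃ (ρ κ : Fin n ≃ I × Fin q) (T : I → I → Finset (Fin n)),
    (∀ i j, (T i j).card = q) ∧
    (∀ i j a, Finset.univ.image (fun b => L (ρ.symm (i, a)) (κ.symm (j, b))) = T i j) ∧
    (∀ i j b, Finset.univ.image (fun a => L (ρ.symm (i, a)) (κ.symm (j, b))) = T i j) ∧
    ∀ i j i' j', T i j = T i' j' ↔ L' i j = L' i' j'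

/-- the values taken by the sum of a row, a column and a symbol -/
abbrev Tor := AddCircle (1 : ℚ)

/-- integer vectors indexed by the rows, the columns and the symbols -/
abbrev Vec (n : ℕ) := (Fin n ⊕ (Fin n ⊕ Fin n)) → ℤ

/-- duality: without a `1`-weight there is a nontrivial homotopy to `ℚ/ℤ` -/
theorem duality {n : ℕ} (L : Fin n → Fin n → Fin n)
    (hno : ¬ ∃ θ : Fin n → Fin n → ℤ, IsWeight L 1 θ) :
    ∃ f g h : Fin n → Tor, (∀ x y, f x + g y = h (L x y)) ∧
      ∑ x, f x + ∑ y, g y - ∑ s, h s ≠ 0 := by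
  classical
  let er : Fin n → Vec n := fun x => Pi.single (Sum.inl x) 1
  let ec : Fin n → Vec n := fun y => Pi.single (Sum.inr (Sum.inl y)) 1
  let es : Fin n → Vec n := fun s => Pi.single (Sum.inr (Sum.inr s)) 1
  let v : Fin n × Fin n → Vec n := fun c => er c.1 + ec c.2 + es (L c.1 c.2)
  let H : AddSubgroup (Vec n) := AddSubgroup.closure (Set.range v)
  let one : Vec n := fun _ => 1
  have hone : one ∉ H := by
    intro hm
    have hspan : one ∈ Submodule.span ℤ (Set.range v) := by
      rw [← Submodule.mem_toAddSubgroup, Submodule.span_int_eq_addSubgroupClosure]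
      exact hm
    obtain ⟨c, hc⟩ := (Submodule.mem_span_range_iff_exists_fun ℤ).mp hspan
    apply hno
    refine ⟨fun x y => c (x, y), ?_, ?_, ?_⟩
    · intro x
      have h1 := congrFun hc (Sum.inl x)
      simp only [v, er, ec, es, one, Finset.sum_apply, Pi.smul_apply, Pi.add_apply,
        Pi.single_apply, smul_eq_mul] at h1
      rw [Fintype.sum_prod_type, Finset.sum_comm] at h1
      simpa using h1
    · intro y
      have h1 := congrFun hc (Sum.inr (Sum.inl y))
      simp only [v, er, ec, es, one, Finset.sum_apply, Pi.smul_apply, Pi.add_apply,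
        Pi.single_apply, smul_eq_mul] at h1
      rw [Fintype.sum_prod_type] at h1
      simpa using h1
    · intro s
      have h1 := congrFun hc (Sum.inr (Sum.inr s))
      simp only [v, er, ec, es, one, Finset.sum_apply, Pi.smul_apply, Pi.add_apply,
        Pi.single_apply, smul_eq_mul] at h1
      rw [Fintype.sum_prod_type] at h1
      rw [← h1]
      refine Finset.sum_congr rfl fun x _ => Finset.sum_congr rfl fun y _ => ?_
      by_cases h : L x y = s
      · simp [h]
      · simp [h, Ne.symm h]
  have hne : (QuotientAddGroup.mk one : Vec n ⧸ H) ≠ 0 := by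
    intro h0
    exact hone ((QuotientAddGroup.eq_zero_iff one).mp h0)
  obtain ⟨c, hc⟩ := CharacterModule.exists_character_apply_ne_zero_of_ne_zero hne
  let χ : Vec n →+ Tor := (c : (Vec n ⧸ H) →+ Tor).comp (QuotientAddGroup.mk' H)
  have hχ : ∀ w ∈ H, χ w = 0 := by
    intro w hw
    show c (QuotientAddGroup.mk w) = 0
    rw [(QuotientAddGroup.eq_zero_iff w).mpr hw]
    exact map_zero c
  have hχ1 : χ one ≠ 0 := hc
  refine ⟨fun x => χ (er x), fun y => χ (ec y), fun s => - χ (es s), ?_, ?_⟩
  · intro x y
    have h1 : χ (v (x, y)) = 0 := hχ _ (AddSubgroup.subset_closure ⟨_, rfl⟩)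
    simp only [v, map_add] at h1
    exact eq_neg_of_add_eq_zero_left h1
  · have h3 : one = ∑ x, er x + ∑ y, ec y + ∑ s, es s := by
      funext t
      rcases t with t | t | t <;>
        simp [one, er, ec, es, Finset.sum_apply, Pi.single_apply]
    rw [h3, map_add, map_add, map_sum, map_sum, map_sum] at hχ1
    simpa [Finset.sum_neg_distrib, sub_neg_eq_add] using hχ1

/-- a map with all fibres of size `q` gives a product decomposition -/
theorem exists_equiv_prod {n q : ℕ} {I : Type} (F : Fin n → I)
    (hq : ∀ i, Nat.card {x // F x = i} = q) :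
    ∃ e : Fin n ≃ I × Fin q, ∀ x, (e x).1 = F x := by
  classical
  have h : ∀ i, Nonempty ({x // F x = i} ≃ Fin q) := by
    intro i
    have : Fintype.card {x // F x = i} = q := by rw [← Nat.card_eq_fintype_card]; exact hq i
    exact ⟨Fintype.equivFinOfCardEq this⟩
  let e : ∀ i, {x // F x = i} ≃ Fin q := fun i => (h i).some
  refine ⟨(Equiv.sigmaFiberEquiv F).symm.trans
    ((Equiv.sigmaCongrRight e).trans (Equiv.sigmaEquivProd I (Fin q))), fun x => rfl⟩

/-- A latin square without odd-weights has the odd-block pattern of `Z_{2m}` for some `m ≥ 1`. -/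
theorem result (n : ℕ) (L : Fin n → Fin n → Fin n) (hL : IsLatin L) (hno : ¬ HasOddWeight L) :
    ∃ m q : ℕ, 1 ≤ m ∧ Odd q ∧ HasBlockPattern L (fun i j : ZMod (2 * m) => i + j) q := by
  classical
  obtain ⟨f₀, g₀, h₀, hfg₀, hsum₀⟩ := duality L (fun ⟨θ, hθ⟩ => hno ⟨1, θ, odd_one, hθ⟩)
  have hn : 0 < n := by
    rcases Nat.eq_zero_or_pos n with rfl | h
    · exfalso; apply hsum₀; simp
    · exact h
  let x0 : Fin n := ⟨0, hn⟩
  obtain ⟨f, g, h, hf0, hg0, hfg, hsum⟩ : ∃ f g h : Fin n → Tor, f x0 = 0 ∧ g x0 = 0 ∧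
      (∀ x y, f x + g y = h (L x y)) ∧ ∑ x, f x + ∑ y, g y - ∑ s, h s ≠ 0 := by
    refine ⟨fun x => f₀ x - f₀ x0, fun y => g₀ y - g₀ x0, fun s => h₀ s - f₀ x0 - g₀ x0, by simp,
      by simp, ?_, ?_⟩
    · intro x y
      show f₀ x - f₀ x0 + (g₀ y - g₀ x0) = h₀ (L x y) - f₀ x0 - g₀ x0
      rw [← hfg₀]; abel
    · intro h1
      apply hsum₀
      rw [← h1]
      simp only [Finset.sum_sub_distrib, Finset.sum_const]
      abel
  -- the common fibre sizes
  let N : Tor → ℕ := fun w => (Finset.univ.filter (fun s => h s = w)).card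
  have hrow : ∀ x w, (Finset.univ.filter (fun y => f x + g y = w)).card = N w := by
    intro x w
    have : (Finset.univ.filter (fun y => f x + g y = w)).image (L x) =
        Finset.univ.filter (fun s => h s = w) := by
      ext s
      simp only [Finset.mem_image, Finset.mem_filter, Finset.mem_univ, true_and]
      constructor
      · rintro ⟨y, hy, rfl⟩; rw [← hfg]; exact hy
      · intro hs
        obtain ⟨y, rfl⟩ := (hL.1 x).2 s
        exact ⟨y, by rw [hfg]; exact hs, rfl⟩
    show _ = (Finset.univ.filter (fun s => h s = w)).card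
    rw [← this, Finset.card_image_of_injective _ (hL.1 x).1]
  have hcol : ∀ y w, (Finset.univ.filter (fun x => f x + g y = w)).card = N w := by
    intro y w
    have : (Finset.univ.filter (fun x => f x + g y = w)).image (fun x => L x y) =
        Finset.univ.filter (fun s => h s = w) := by
      ext s
      simp only [Finset.mem_image, Finset.mem_filter, Finset.mem_univ, true_and]
      constructor
      · rintro ⟨x, hx, rfl⟩; rw [← hfg]; exact hx
      · intro hs
        obtain ⟨x, rfl⟩ := (hL.2 y).2 s
        exact ⟨x, by rw [hfg]; exact hs, rfl⟩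
    show _ = (Finset.univ.filter (fun s => h s = w)).card
    rw [← this, Finset.card_image_of_injective _ (hL.2 y).1]
  have hNf : ∀ w, (Finset.univ.filter (fun x => f x = w)).card = N w := by
    intro w
    rw [← hcol x0 w, hg0]
    simp
  have hNg : ∀ w, (Finset.univ.filter (fun y => g y = w)).card = N w := by
    intro w
    rw [← hrow x0 w, hf0]
    simp
  have hshift : ∀ x w, N w = N (w - f x) := by
    intro x w
    rw [← hrow x w, ← hNg (w - f x)]
    congr 1
    ext y
    simp only [Finset.mem_filter, Finset.mem_univ, true_and]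
    constructor
    · intro h1; rw [← h1]; abel
    · intro h1; rw [h1]; abel
  have hpos : ∀ w, 0 < N w ↔ w ∈ Set.range f := by
    intro w
    rw [← hNf w, Finset.card_pos]
    constructor
    · rintro ⟨x, hx⟩; exact ⟨x, (Finset.mem_filter.mp hx).2⟩
    · rintro ⟨x, hx⟩; exact ⟨x, Finset.mem_filter.mpr ⟨Finset.mem_univ _, hx⟩⟩
  let K : AddSubgroup Tor :=
    { carrier := Set.range f
      zero_mem' := ⟨x0, hf0⟩
      add_mem' := by
        rintro a b ⟨x, rfl⟩ hb
        rw [← hpos, hshift x]
        rw [show f x + b - f x = b by abel]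
        exact (hpos b).mpr hb
      neg_mem' := by
        rintro a ⟨x, rfl⟩
        rw [← hpos]
        have h1 := hshift x 0
        rw [zero_sub] at h1
        rw [← h1]
        exact (hpos 0).mpr ⟨x0, hf0⟩ }
  have hKmem : ∀ w, w ∈ K ↔ 0 < N w := fun w => (hpos w).symm
  have hNK : ∀ w ∈ K, N w = N 0 := by
    rintro w ⟨x, rfl⟩
    rw [hshift x, sub_self]
  set q := N 0 with hqdef
  have hqpos : 0 < q := (hKmem 0).mp K.zero_mem
  have hKfin : Finite K := Set.finite_range f
  haveI : Fintype K := Fintype.ofFinite K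
  have hcyc : IsAddCyclic K := by
    apply isAddCyclic_of_card_nsmul_eq_zero_le
    intro k hk
    have h1 := AddCircle.card_torsion_le_of_isSMulRegular (1 : ℚ) k hk.ne'
      (.of_right_eq_zero_of_smul fun _ ↦ by simp [hk.ne'])
    have h2 : ((Finset.univ.filter (fun a : K => k • a = 0)).card : ℕ∞) ≤
        {x : AddCircle (1 : ℚ) | k • x = 0}.encard := by
      rw [← Set.encard_coe_eq_coe_finsetCard]
      have h3 : ((fun a : K => (a : Tor)) ''
          ((Finset.univ.filter (fun a : K => k • a = 0) : Finset K) : Set K)) ⊆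
          {x : AddCircle (1 : ℚ) | k • x = 0} := by
        rintro x ⟨a, ha, rfl⟩
        have h4 : k • a = 0 := (Finset.mem_filter.mp (Finset.mem_coe.mp ha)).2
        show k • (a : Tor) = 0
        rw [← AddSubgroup.coe_nsmul, h4]; rfl
      rw [← (Subtype.val_injective : Function.Injective (fun a : K => (a : Tor))).encard_image]
      exact Set.encard_le_encard h3
    exact_mod_cast h2.trans h1
  let φ : ZMod (Nat.card K) ≃+ K := zmodAddCyclicAddEquiv hcyc
  have hfK : ∀ x, f x ∈ K := fun x => ⟨x, rfl⟩
  have hgK : ∀ y, g y ∈ K := by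
    intro y
    rw [hKmem, ← hNg, Finset.card_pos]
    exact ⟨y, Finset.mem_filter.mpr ⟨Finset.mem_univ _, rfl⟩⟩
  have hhK : ∀ s, h s ∈ K := by
    intro s
    rw [hKmem]
    exact Finset.card_pos.mpr ⟨s, Finset.mem_filter.mpr ⟨Finset.mem_univ _, rfl⟩⟩
  -- sums
  let S : Tor := ∑ w : K, (w : Tor)
  have hsumgen : ∀ F : Fin n → Tor, (∀ x, F x ∈ K) →
      (∀ w, (Finset.univ.filter (fun x => F x = w)).card = N w) → ∑ x, F x = q • S := by
    intro F hF hN
    have h1 : ∑ x, F x = ∑ w : K, ∑ x ∈ Finset.univ.filter (fun x => (⟨F x, hF x⟩ : K) = w), F x :=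
      (Finset.sum_fiberwise Finset.univ (fun x => (⟨F x, hF x⟩ : K)) F).symm
    rw [h1, Finset.smul_sum]
    refine Finset.sum_congr rfl fun w _ => ?_
    have h2 : Finset.univ.filter (fun x => (⟨F x, hF x⟩ : K) = w) =
        Finset.univ.filter (fun x => F x = (w : Tor)) := by
      ext x
      simp [Subtype.ext_iff]
    rw [h2, Finset.sum_congr rfl (g := fun _ => (w : Tor))
      (fun x hx => (Finset.mem_filter.mp hx).2), Finset.sum_const, hN, hNK _ w.2]
  have hqS : q • S ≠ 0 := by
    intro h1
    apply hsum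
    rw [hsumgen f hfK hNf, hsumgen g hgK hNg, hsumgen h hhK (fun w => rfl), h1]
    simp
  have h2S : 2 • S = 0 := by
    have h1 : S = ∑ w : K, ((-w : K) : Tor) :=
      (Equiv.sum_comp (Equiv.neg K) (fun w : K => (w : Tor))).symm
    have h2 : S = - S := by
      conv_lhs => rw [h1]
      simp [S]
    rw [two_nsmul]
    nth_rewrite 1 [h2]
    simp
  have hSK : S ∈ K := AddSubgroup.sum_mem K (fun w _ => w.2)
  have hqodd : Odd q := by
    rw [← Nat.not_even_iff_odd]
    rintro ⟨t, ht⟩
    apply hqS
    rw [ht, ← two_mul, mul_comm, mul_nsmul', h2S, nsmul_zero]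
  have hMS : Nat.card K • S = 0 := by
    have h1 : Nat.card K • (⟨S, hSK⟩ : K) = 0 := card_nsmul_eq_zero'
    have h2 := congrArg (fun w : K => (w : Tor)) h1
    rw [← AddSubgroup.coe_zero K, ← h2]
    rfl
  have hMeven : Even (Nat.card K) := by
    rw [← Nat.not_odd_iff_even]
    rintro ⟨t, ht⟩
    apply hqS
    rw [ht, add_nsmul, mul_comm, mul_nsmul', h2S, nsmul_zero, zero_add, one_nsmul] at hMS
    rw [hMS, nsmul_zero]
  obtain ⟨m, hm⟩ := hMeven
  have hm' : Nat.card K = 2 * m := by omega
  have hMpos : 0 < Nat.card K := Nat.card_pos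
  have key : ∀ M : ℕ, Nat.card K = M → ∀ φ : ZMod M ≃+ K,
      HasBlockPattern L (fun i j : ZMod M => i + j) q := by
    intro M _ φ
    have hfib : ∀ F : Fin n → Tor, ∀ hF : (∀ x, F x ∈ K),
        (∀ w, (Finset.univ.filter (fun x => F x = w)).card = N w) →
        ∀ i : ZMod M, Nat.card {x // φ.symm ⟨F x, hF x⟩ = i} = q := by
      intro F hF hN i
      rw [Nat.card_eq_fintype_card, Fintype.card_subtype, ← hNK (φ i : K) (φ i).2, ← hN]
      congr 1
      ext x
      simp only [Finset.mem_filter, Finset.mem_univ, true_and]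
      rw [AddEquiv.symm_apply_eq, Subtype.ext_iff]
    obtain ⟨ρ, hρ⟩ := exists_equiv_prod _ (hfib f hfK hNf)
    obtain ⟨κ, hκ⟩ := exists_equiv_prod _ (hfib g hgK hNg)
    have hρ' : ∀ i a, f (ρ.symm (i, a)) = (φ i : K) := by
      intro i a
      have h1 := hρ (ρ.symm (i, a))
      rw [Equiv.apply_symm_apply] at h1
      have h2 := congrArg φ h1
      rw [AddEquiv.apply_symm_apply] at h2
      exact (congrArg (fun w : K => (w : Tor)) h2).symm
    have hκ' : ∀ j b, g (κ.symm (j, b)) = (φ j : K) := by
      intro j b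
      have h1 := hκ (κ.symm (j, b))
      rw [Equiv.apply_symm_apply] at h1
      have h2 := congrArg φ h1
      rw [AddEquiv.apply_symm_apply] at h2
      exact (congrArg (fun w : K => (w : Tor)) h2).symm
    let T : ZMod M → ZMod M → Finset (Fin n) := fun i j =>
      Finset.univ.filter (fun s => h s = (φ (i + j) : K))
    have hT : ∀ i j, (T i j).card = q := fun i j => hNK _ (φ (i + j)).2
    have hin : ∀ i j a b, L (ρ.symm (i, a)) (κ.symm (j, b)) ∈ T i j := by
      intro i j a b
      refine Finset.mem_filter.mpr ⟨Finset.mem_univ _, ?_⟩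
      rw [← hfg, hρ', hκ', map_add]
      rfl
    refine ⟨ρ, κ, T, hT, ?_, ?_, ?_⟩
    · intro i j a
      apply Finset.eq_of_subset_of_card_le
      · intro s hs
        obtain ⟨b, _, rfl⟩ := Finset.mem_image.mp hs
        exact hin i j a b
      · rw [hT, Finset.card_image_of_injective, Finset.card_univ, Fintype.card_fin]
        intro b b' hb
        have h1 := κ.symm.injective ((hL.1 _).1 hb)
        exact (Prod.mk.inj h1).2
    · intro i j b
      apply Finset.eq_of_subset_of_card_le
      · intro s hs
        obtain ⟨a, _, rfl⟩ := Finset.mem_image.mp hs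
        exact hin i j a b
      · rw [hT, Finset.card_image_of_injective, Finset.card_univ, Fintype.card_fin]
        intro a a' ha
        have h1 := ρ.symm.injective ((hL.2 _).1 ha)
        exact (Prod.mk.inj h1).2
    · intro i j i' j'
      constructor
      · intro he
        have hne : (T i j).Nonempty := Finset.card_pos.mp (by rw [hT]; exact hqpos)
        obtain ⟨s, hs⟩ := hne
        have h1 := (Finset.mem_filter.mp hs).2
        rw [he] at hs
        have h2 := (Finset.mem_filter.mp hs).2
        have h3 : φ (i + j) = φ (i' + j') := Subtype.ext (h1.symm.trans h2)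
        exact φ.injective h3
      · intro he
        show Finset.univ.filter _ = Finset.univ.filter _
        simp only at he
        rw [he]
  refine ⟨m, q, by omega, hqodd, ?_⟩
  have h1 := hm' ▸ φ
  exact key (2 * m) hm' h1

end Pool.Agent.Results.MP_b7f7f4_co.OddBlockPattern
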